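import Pool.Agent.H68.MB.Fam

/-!
# Almost malnormal subgroups with Morse limit set equal to the Morse boundary: counterexamples from
# affine groups of commutative rings

The library (`Pool.Graph.R_seed8.Results.MP_1d7d98_al.FreeProductRetract`) has one example,
`P * P ≤ K * K` with `K = ℤ[1/6] ⋊ ℤ²`. Here `K` is the group of maps of any nontrivial
commutative ring `R` generated by `t ↦ t + 1`, `t ↦ α t` and `t ↦ β t`, where `α` and `β` are units
such that multiplication by `1 - αˣ βʸ` is injective for all `(x, y) ≠ (0, 0)` (for a field: `α` and
`β` are multiplicatively independent; the example of the library is `R = ℚ`, `α = 2`, `β = 3`).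
For the group rings `R = 𝔽_p[ℤ²]`, with `K` the wreath product of `ℤ/p` and `ℤ²`, the groups
`K * K` are pairwise not isomorphic: `K * K` has an element `g` with `g ^ p = 1` and a homomorphism
to `ℤ/p` which does not kill `g`, and this is not so for the other primes.
-/

set_option autoImplicit false

namespace Pool.Agent.Results.MP_1d7d98_al.AffineGroupsOfRings

open Monoid Pool.Agent.H659R3.MorseLim Pool.Agent.H68.MB

/-- The subgroup `P * P` of the free product `K * K` of two copies of the group
`K = Aff.KK R α β`: the image of the free product of two copies of `ℤ²` under the map which sends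
`(x, y)` in the factor `i` to the map `t ↦ αˣ βʸ t` in the factor `i`. -/
def PP (R : Type) [CommRing R] (α β : Rˣ) : Subgroup (FP (Aff.KK R α β)) :=
  (CoprodI.lift fun i : Bool => (ι i).comp (Aff.σK (R := R) (α := α) (β := β))).range

/-- **Counterexamples from rings, and infinitely many groups.**
1. If `R` is a nontrivial commutative ring and `α`, `β` are units of `R` such that multiplication
by `1 - αˣ βʸ` is injective for all `(x, y) ≠ (0, 0)`, then the subgroup `P * P` of `K * K`, where
`K = Aff.KK R α β`, is malnormal, a retract, isomorphic to the free product of two copies of `ℤ²`,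
has nonempty Morse boundary, which is the limit set in the Morse boundary of `K * K`, and is not
hyperbolically embedded (`Counter`).
2. There are infinitely many pairwise nonisomorphic (finitely generated) groups with such a
subgroup. -/
theorem result :
    (∀ (R : Type) [CommRing R] [Nontrivial R] (α β : Rˣ),
      (∀ x y : ℤ, (x, y) ≠ (0, 0) → ∀ c : R, (1 - ((α ^ x * β ^ y : Rˣ) : R)) * c = 0 → c = 0) →
        Counter (PP R α β)) ∧
    ∃ (G : ℕ → Type) (_ : ∀ n, Group (G n)), (∀ m n, m ≠ n → IsEmpty (G m ≃* G n)) ∧
      ∀ n, ∃ H : Subgroup (G n), Counter H := by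
  refine ⟨fun R _ _ α β h => ?_, fun n => FP (Aff.KK (RR (Nat.nth Nat.Prime n)) (uα _) (uβ _)),
    fun n => inferInstance, fun m n hmn => ?_, fun n => ?_⟩
  · have h1 := counter (Aff.dataKK h)
    rw [← range_fs] at h1
    exact h1
  · have i1 : Fact (Nat.nth Nat.Prime m).Prime := ⟨Nat.prime_nth_prime m⟩
    have i2 : Fact (Nat.nth Nat.Prime n).Prime := ⟨Nat.prime_nth_prime n⟩
    exact not_iso _ _ fun h => hmn (Nat.nth_injective Nat.infinite_setOfPred_prime h)
  · have i2 : Fact (Nat.nth Nat.Prime n).Prime := ⟨Nat.prime_nth_prime n⟩
    exact ⟨_, counter (DP (Nat.nth Nat.Prime n))⟩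

end Pool.Agent.Results.MP_1d7d98_al.AffineGroupsOfRings
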